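import Pool.Agent.N186.VS.Cat

/-!
# The clasp: the critical value is `8 Λ(π/4) / (2 π)`
-/

set_option autoImplicit false

namespace Pool.Agent.N186.VS

open Filter Topology Metric Set MeasureTheory
open GapVol (lob)
open Pool.Agent.W709.VC (Dv)
open Pool.Agent.N402.VE (Om LL_Dv LS_Dv)
open Pool.Agent.N561 (LL LS RR)
open scoped Real

/-- the critical value of the clasp -/
theorem clasp_val {w : ℂ} (hw : w = -(Complex.I / 2) * Complex.log (1 + 2 * Complex.I)) :
    4 * (LL w).re - 6 * (LS w).re + π * w.im + 2 * (w.re * w.im) = 8 * lob (π / 4) := by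
  have hp := Real.pi_pos
  have hI := Complex.I_mul_I
  have u0 : (1 + 2 * Complex.I) ≠ 0 := by
    intro h
    have := congrArg Complex.re h
    simp at this
  have hwre : w.re = Complex.arg (1 + 2 * Complex.I) / 2 := by
    rw [hw]
    simp [Complex.log_im]
    ring
  have hwim : w.im = -(Real.log ‖(1 + 2 * Complex.I : ℂ)‖ / 2) := by
    rw [hw]
    simp [Complex.log_re]
    ring
  have ha1 : |Complex.arg (1 + 2 * Complex.I)| < π / 2 :=
    Complex.abs_arg_lt_pi_div_two_iff.2 (Or.inl (by simp))
  have ha0 : 0 < Complex.arg (1 + 2 * Complex.I) := by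
    have h1 : 0 ≤ Complex.arg (1 + 2 * Complex.I) := Complex.arg_nonneg_iff.2 (by simp)
    rcases h1.lt_or_eq with h | h
    · exact h
    · exfalso
      have h2 := Complex.arg_eq_zero_iff.1 h.symm
      have := h2.2
      simp at this
  rw [abs_of_pos ha0] at ha1
  have h0 : 0 < w.re := by rw [hwre]; linarith
  have h1 : w.re < π / 4 := by rw [hwre]; linarith
  have hE : Complex.exp (Complex.I * (2 * w)) = 1 + 2 * Complex.I := by
    have : Complex.I * (2 * w) = Complex.log (1 + 2 * Complex.I) := by
      rw [hw]; linear_combination (-Complex.log (1 + 2 * Complex.I)) * hI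
    rw [this, Complex.exp_log u0]
  have hEI : Complex.exp (Complex.I * w) ≠ 0 := Complex.exp_ne_zero _
  have hinv : Complex.exp (Complex.I * w) * Complex.exp (-(Complex.I * w)) = 1 := by
    rw [← Complex.exp_add, add_neg_cancel, Complex.exp_zero]
  have hE2 : Complex.exp (Complex.I * w) * Complex.exp (Complex.I * w) = 1 + 2 * Complex.I := by
    rw [← Complex.exp_add, ← hE]; congr 1; ring
  -- `e^(-iw)` in polar form
  have hpol : Complex.exp (-(Complex.I * w)) =
      ((Real.exp w.im : ℝ) : ℂ) * Complex.exp (((-w.re : ℝ) : ℂ) * Complex.I) := by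
    rw [Complex.ofReal_exp, ← Complex.exp_add]
    congr 1
    conv_lhs => rw [← Complex.re_add_im w]
    push_cast
    linear_combination (-(w.im : ℂ)) * hI
  have hcos : Complex.cos w = Complex.exp (-(Complex.I * w)) * (1 + Complex.I) := by
    rw [Complex.cos]
    have e1 : Complex.exp (w * Complex.I) = Complex.exp (Complex.I * w) := by congr 1; ring
    have e2 : Complex.exp (-w * Complex.I) = Complex.exp (-(Complex.I * w)) := by congr 1; ring
    rw [e1, e2]
    linear_combination (-Complex.exp (Complex.I * w) / 2) * hinv +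
      (Complex.exp (-(Complex.I * w)) / 2) * hE2
  have hsin : Complex.sin w = Complex.exp (-(Complex.I * w)) := by
    rw [Complex.sin]
    have e1 : Complex.exp (w * Complex.I) = Complex.exp (Complex.I * w) := by congr 1; ring
    have e2 : Complex.exp (-w * Complex.I) = Complex.exp (-(Complex.I * w)) := by congr 1; ring
    rw [e1, e2]
    linear_combination (Complex.I * Complex.exp (Complex.I * w) / 2) * hinv -
      (Complex.I * Complex.exp (-(Complex.I * w)) / 2) * hE2 -
      Complex.exp (-(Complex.I * w)) * hI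
  have hasin : (Complex.sin w).arg = -w.re := by
    rw [hsin, hpol, Complex.arg_real_mul _ (Real.exp_pos _), Complex.exp_mul_I,
      Complex.arg_cos_add_sin_mul_I ⟨by linarith, by linarith⟩]
  have hacos : (Complex.cos w).arg = π / 4 - w.re := by
    have e3 : (1 + Complex.I : ℂ) = ((‖(1 + Complex.I : ℂ)‖ : ℝ) : ℂ) *
        Complex.exp (((π / 4 : ℝ) : ℂ) * Complex.I) := by
      have := Complex.norm_mul_exp_arg_mul_I (1 + Complex.I)
      rw [arg_one_add_I] at this
      exact this.symm
    have e4 : Complex.cos w = ((Real.exp w.im * ‖(1 + Complex.I : ℂ)‖ : ℝ) : ℂ) *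
        Complex.exp (((π / 4 - w.re : ℝ) : ℂ) * Complex.I) := by
      rw [hcos, hpol]
      conv_lhs => rw [e3]
      have : Complex.exp (((π / 4 - w.re : ℝ) : ℂ) * Complex.I) =
          Complex.exp (((-w.re : ℝ) : ℂ) * Complex.I) * Complex.exp (((π / 4 : ℝ) : ℂ) * Complex.I) := by
        rw [← Complex.exp_add]; congr 1; push_cast; ring
      rw [this]
      push_cast
      ring
    have hn : 0 < ‖(1 + Complex.I : ℂ)‖ := by
      rw [norm_pos_iff]
      intro h
      have := congrArg Complex.re h
      simp at this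
    rw [e4, Complex.arg_real_mul _ (mul_pos (Real.exp_pos _) hn), Complex.exp_mul_I,
      Complex.arg_cos_add_sin_mul_I ⟨by linarith, by linarith⟩]
  have hOm : w ∈ Om := by
    refine ⟨?_, Or.inr ?_⟩ <;> rw [abs_of_pos h0] <;> linarith
  have k1 := LL_Dv hOm
  have k2 := LS_Dv h0 (by linarith)
  rw [hE, hacos] at k1
  rw [hE, hasin] at k2
  have k3 := Dv_clasp
  rw [Dv_I] at k3
  linear_combination 2 * k1 - 3 * k2 + k3

/-- the critical value of the clasp, in the form of the definition of `QC` -/
theorem clasp_value :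
    2 * π * (RR (Complex.log (1 + 2 * Complex.I * Complex.cos (0 / 2)) / (2 * π * Complex.I)) 0 -
      3 * (LS (π * (Complex.log (1 + 2 * Complex.I * Complex.cos (0 / 2)) /
        (2 * π * Complex.I))) / π) - π * Complex.I / 2 *
      (Complex.log (1 + 2 * Complex.I * Complex.cos (0 / 2)) / (2 * π * Complex.I) +
        (Complex.log (1 + 2 * Complex.I * Complex.cos (0 / 2)) / (2 * π * Complex.I)) ^ 2)).re =
    8 * lob (π / 4) := by
  have hI := Complex.I_mul_I
  have hp : (π : ℂ) ≠ 0 := by exact_mod_cast Real.pi_ne_zero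
  set w : ℂ := -(Complex.I / 2) * Complex.log (1 + 2 * Complex.I) with hw
  have e0 : (1 + 2 * Complex.I * Complex.cos (0 / 2) : ℂ) = 1 + 2 * Complex.I := by simp
  rw [e0]
  have e1 : Complex.log (1 + 2 * Complex.I) / (2 * π * Complex.I) = w / π := by
    rw [hw, div_eq_div_iff (by simp [hp]) hp]
    linear_combination ((π : ℂ) * Complex.log (1 + 2 * Complex.I)) * hI
  rw [e1]
  unfold RR
  have e2 : (π : ℂ) * (w / π) = w := mul_div_cancel₀ _ hp
  rw [e2]
  have e3 : w + 0 / 2 = w := by simp
  have e4 : w - 0 / 2 = w := by simp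
  rw [e3, e4]
  have e5 : ((2 * π : ℝ) : ℂ) * ((LL w + LL w) / π - 3 * (LS w / π) -
      π * Complex.I / 2 * (w / π + (w / π) ^ 2)) =
      ((4 : ℝ) : ℂ) * LL w - ((6 : ℝ) : ℂ) * LS w - Complex.I * (((π : ℝ) : ℂ) * w + w * w) := by
    push_cast
    field_simp
    ring
  have e6 := congrArg Complex.re e5
  rw [Complex.re_ofReal_mul] at e6
  rw [e6, ← clasp_val hw]
  simp only [Complex.sub_re, Complex.re_ofReal_mul, Complex.I_mul_re, Complex.add_im,
    Complex.mul_im, Complex.ofReal_re, Complex.ofReal_im]
  ring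

end Pool.Agent.N186.VS
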