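import Pool.Agent.N561.C.Stm
import Pool.Agent.N186.VS.Val

/-!
# The clasp: lower bound for the critical value
-/

set_option autoImplicit false

namespace Pool.Agent.N186.VS

open Pool.Agent.N561
open scoped Real

/-- the critical value of the clasp is `4 Λ(π/4) / π = 2 G / π` -/
theorem FC_zero : 2 * π * (FC 0).re = 8 * GapVol.lob (π / 4) := clasp_value

/-- job K2v -/
theorem cv : S_CV := by
  have h1 := FC_zero
  have h2 := lob_four_low
  have h3 := Real.pi_lt_d4
  have h4 := Real.pi_pos
  show 57 / 100 < (FC 0).re
  by_contra hc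
  rw [not_lt] at hc
  nlinarith

end Pool.Agent.N186.VS
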