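import Pool.Agent.N402.VE.LSf
import Pool.Agent.W505.VC.Five

/-!
# The clasp: values of the Bloch-Wigner function, a lower bound for Lobachevsky's function
-/

set_option autoImplicit false

namespace Pool.Agent.N186.VS

open Filter Topology Metric Set MeasureTheory
open GapVol (lob g g_int lob_half lob_eq)
open Pool.Agent.W709.VC (Dv)
open scoped Real

/-- `log (π / 2) < 0.4525` -/
theorem log_half_pi : Real.log (π / 2) < 181 / 400 := by
  rw [Real.log_lt_iff_lt_exp (by positivity)]
  have h1 := Real.pi_lt_d4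
  have h2 := Real.sum_le_exp_of_nonneg (x := 181 / 400) (by norm_num) 5
  simp only [Finset.sum_range_succ, Finset.sum_range_zero, Nat.factorial] at h2
  norm_num at h2
  linarith

/-- pointwise lower bound -/
theorem g_low {t : ℝ} (h0 : 0 < t) (h1 : t ≤ 1) :
    -Real.log 2 - Real.log t + t ^ 2 / 6 - t ^ 4 / 100 ≤ g t := by
  unfold g
  have h2 := Real.sin_bound (x := t) (by rw [abs_of_pos h0]; exact h1)
  rw [abs_of_pos h0, abs_le] at h2
  have h3 : Real.sin t ≤ t * (1 + (-(t ^ 2 / 6) + t ^ 4 / 100)) := by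
    have : t * (1 + (-(t ^ 2 / 6) + t ^ 4 / 100)) = t - t ^ 3 / 6 + t ^ 5 / 100 := by ring
    rw [this]; linarith [h2.2]
  have h4 : 0 < Real.sin t := Real.sin_pos_of_pos_of_lt_pi h0 (by linarith [Real.pi_gt_three])
  have h5 : 0 < 1 + (-(t ^ 2 / 6) + t ^ 4 / 100) := by
    by_contra hc
    have := mul_nonpos_of_nonneg_of_nonpos h0.le (not_lt.1 hc)
    linarith
  have h6 : Real.log (2 * Real.sin t) ≤
      Real.log (2 * (t * (1 + (-(t ^ 2 / 6) + t ^ 4 / 100)))) :=
    Real.log_le_log (by positivity) (by linarith)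
  rw [Real.log_mul (by norm_num) h4.ne', Real.log_mul (by norm_num) (mul_pos h0 h5).ne',
    Real.log_mul h0.ne' h5.ne'] at h6
  rw [Real.log_mul (by norm_num) h4.ne']
  have h7 := Real.log_le_sub_one_of_pos h5
  linarith

/-- lower bound for half of Catalan's constant -/
theorem lob_four_low : 45 / 100 < lob (π / 4) := by
  have hp1 := Real.pi_gt_d4
  have hp2 := Real.pi_lt_d4
  set a : ℝ := π / 4 with ha
  have ha0 : 0 < a := by positivity
  have ha1 : a ≤ 1 := by rw [ha]; linarith
  have i1 : IntervalIntegrable (fun t : ℝ => -Real.log 2 - Real.log t) volume 0 a :=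
    intervalIntegrable_const.sub intervalIntegral.intervalIntegrable_log'
  have i2 : IntervalIntegrable (fun t : ℝ => t ^ 2 / 6) volume 0 a :=
    (Continuous.intervalIntegrable (by fun_prop) _ _)
  have i3 : IntervalIntegrable (fun t : ℝ => t ^ 4 / 100) volume 0 a :=
    (Continuous.intervalIntegrable (by fun_prop) _ _)
  have h1 : ∫ t in (0:ℝ)..a, (-Real.log 2 - Real.log t + t ^ 2 / 6 - t ^ 4 / 100) ≤
      ∫ t in (0:ℝ)..a, g t := by
    apply intervalIntegral.integral_mono_on_of_le_Ioo ha0.le ((i1.add i2).sub i3) (g_int 0 a)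
    intro t ht
    exact g_low ht.1 (by linarith [ht.2])
  rw [← lob_eq, intervalIntegral.integral_sub (i1.add i2) i3, intervalIntegral.integral_add i1 i2,
    intervalIntegral.integral_sub intervalIntegrable_const intervalIntegral.intervalIntegrable_log',
    intervalIntegral.integral_const, integral_log, intervalIntegral.integral_div,
    intervalIntegral.integral_div, integral_pow, integral_pow] at h1
  simp only [sub_zero, smul_eq_mul, zero_mul] at h1
  have h2 : Real.log (π / 2) = Real.log 2 + Real.log a := by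
    rw [← Real.log_mul (by norm_num) ha0.ne', ha]
    congr 1; ring
  have h3 := log_half_pi
  rw [h2] at h3
  have h4 : (785 : ℝ) / 1000 < a := by rw [ha]; linarith
  have h5 : a < 786 / 1000 := by rw [ha]; linarith
  have h6 : a * (Real.log 2 + Real.log a) ≤ a * (181 / 400) :=
    mul_le_mul_of_nonneg_left h3.le ha0.le
  have h7 : (785 / 1000 : ℝ) ^ 3 ≤ a ^ 3 := pow_le_pow_left₀ (by norm_num) h4.le 3
  have h8 : a ^ 5 ≤ (786 / 1000 : ℝ) ^ 5 := pow_le_pow_left₀ ha0.le h5.le 5
  norm_num at h1 h7 h8
  nlinarith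

theorem arg_one_add_I : Complex.arg (1 + Complex.I) = π / 4 := by
  have h2 : (1 + Complex.I : ℂ) = ((√2 : ℝ) : ℂ) * (Complex.cos ((π / 4 : ℝ) : ℂ) +
      Complex.sin ((π / 4 : ℝ) : ℂ) * Complex.I) := by
    rw [← Complex.ofReal_cos, ← Complex.ofReal_sin, Real.cos_pi_div_four, Real.sin_pi_div_four]
    have h3 : ((√2 : ℝ) : ℂ) * ((√2 : ℝ) : ℂ) = 2 := by
      rw [← Complex.ofReal_mul, Real.mul_self_sqrt (by norm_num)]; norm_num
    push_cast
    linear_combination (-(1 + Complex.I) / 2) * h3
  rw [h2, Complex.arg_mul_cos_add_sin_mul_I (by positivity)]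
  have := Real.pi_pos
  constructor <;> linarith

theorem Dv_I : Dv Complex.I = 2 * lob (π / 4) := by
  have hI := Complex.I_mul_I
  have hI0 : Complex.I ≠ 0 := Complex.I_ne_zero
  have h0 : (1 - Complex.I) ≠ 0 := by
    intro h
    have := congrArg Complex.re h
    simp at this
  have e1 : 1 / (1 - Complex.I) = ((1 / 2 : ℝ) : ℂ) * (1 + Complex.I) := by
    rw [div_eq_iff h0]
    push_cast
    linear_combination (1 / 2 : ℂ) * hI
  have e2 : 1 - 1 / Complex.I = 1 + Complex.I := by
    rw [one_div, Complex.inv_I]; ring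
  unfold Pool.Agent.W709.VC.Dv
  rw [e1, e2, Complex.arg_real_mul _ (by norm_num), arg_one_add_I, Complex.arg_I, lob_half]
  ring

/-- the identity of the clasp -/
theorem Dv_clasp : 3 * Dv (1 + 2 * Complex.I) - 2 * Dv (-(1 + 2 * Complex.I)) =
    4 * Dv Complex.I := by
  have hF := Pool.Agent.W505.VC.five
  obtain ⟨hc, hs, hi⟩ := Pool.Agent.W505.VC.dsym
  have hI := Complex.I_mul_I
  have hI0 : Complex.I ≠ 0 := Complex.I_ne_zero
  have n1 : (1 - 2 * Complex.I) ≠ 0 := by
    intro h
    have := congrArg Complex.re h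
    simp at this
  have n2 : (2 + Complex.I) ≠ 0 := by
    intro h
    have := congrArg Complex.re h
    simp at this
  have n3 : (1 + Complex.I) ≠ 0 := by
    intro h
    have := congrArg Complex.re h
    simp at this
  -- elementary values
  have r1 : Dv 2 = 0 := by
    have := hc 2
    rw [show (starRingEnd ℂ) 2 = 2 from Complex.conj_ofNat 2] at this
    linarith
  have r2 : Dv (1 + 2 * Complex.I) = Dv (2 * Complex.I) := by
    have h1 := hs (-(2 * Complex.I))
    have h2 := hc (2 * Complex.I)
    have e : (starRingEnd ℂ) (2 * Complex.I) = -(2 * Complex.I) := by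
      rw [map_mul, Complex.conj_I, Complex.conj_ofNat]; ring
    rw [e] at h2
    rw [show 1 - -(2 * Complex.I) = 1 + 2 * Complex.I by ring] at h1
    linarith
  have r3 : Dv (1 + Complex.I) = Dv Complex.I := by
    have h1 := hs (-Complex.I)
    have h2 := hc Complex.I
    rw [Complex.conj_I] at h2
    rw [show 1 - -Complex.I = 1 + Complex.I by ring] at h1
    linarith
  have r4 : Dv ((2 + Complex.I)⁻¹) = -Dv (2 + Complex.I) := hi _
  have r5 : Dv (1 - (2 + Complex.I)⁻¹) = Dv (2 + Complex.I) := by
    rw [hs, hi]; ring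
  have r6 : Dv (1 - (-(1 - 2 * Complex.I))⁻¹) = -Dv (-(1 + 2 * Complex.I)) := by
    rw [hs, hi]
    have h2 := hc (-(1 + 2 * Complex.I))
    have e : (starRingEnd ℂ) (-(1 + 2 * Complex.I)) = -(1 - 2 * Complex.I) := by
      rw [map_neg, map_add, map_mul, Complex.conj_I, Complex.conj_ofNat, map_one]; ring
    rw [e] at h2
    linarith
  -- duplication
  have d1 := hF (1 + Complex.I) (2 * Complex.I) n3 (by
    intro h; exact hI0 (by linear_combination h)) (by simpa using hI0) (by
    intro h
    have := congrArg Complex.re h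
    simp at this) (by
    intro h
    have := congrArg Complex.re h
    simp at this)
  have e1 : 2 * Complex.I / (1 + Complex.I) = 1 + Complex.I := by
    rw [div_eq_iff n3]; linear_combination -hI
  have n4 : (1 - (2 * Complex.I)⁻¹) ≠ 0 := by
    intro h
    have h3 : (2 * Complex.I) * (1 - (2 * Complex.I)⁻¹) = 0 := by rw [h]; ring
    rw [mul_sub, mul_inv_cancel₀ (by simpa using hI0)] at h3
    apply n1
    linear_combination -h3
  have e2 : (1 - (1 + Complex.I)⁻¹) / (1 - (2 * Complex.I)⁻¹) = 1 - (2 + Complex.I)⁻¹ := by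
    rw [div_eq_iff n4]
    have h2 : (2 * Complex.I)⁻¹ = -Complex.I / 2 := by
      rw [mul_inv, Complex.inv_I]; ring
    rw [h2]
    field_simp
    linear_combination (-Complex.I - 2) * hI
  have e3 : (1 - (1 + Complex.I)) / (1 - 2 * Complex.I) = (2 + Complex.I)⁻¹ := by
    rw [div_eq_iff n1]
    field_simp
    linear_combination -hI
  rw [e1, e2, e3, r4, r5] at d1
  -- the second relation
  have d2 := hF Complex.I (2 * Complex.I) hI0 (by
    intro h
    have := congrArg Complex.re h
    simp at this) (by simpa using hI0) (by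
    intro h
    have := congrArg Complex.re h
    simp at this) (by
    intro h; exact hI0 (by linear_combination -h))
  have e4 : 2 * Complex.I / Complex.I = 2 := by
    rw [div_eq_iff hI0]
  have n5 : (-(1 - 2 * Complex.I)) ≠ 0 := neg_ne_zero.2 n1
  have e5 : (1 - Complex.I⁻¹) / (1 - (2 * Complex.I)⁻¹) = 1 - (-(1 - 2 * Complex.I))⁻¹ := by
    rw [div_eq_iff n4]
    have h2 : (2 * Complex.I)⁻¹ = -Complex.I / 2 := by
      rw [mul_inv, Complex.inv_I]; ring
    rw [h2, Complex.inv_I, inv_neg]
    have h4 : (1 - 2 * Complex.I) * (1 - 2 * Complex.I)⁻¹ = 1 := mul_inv_cancel₀ n1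
    apply mul_left_cancel₀ n1
    linear_combination (-(1 + Complex.I / 2)) * h4 - hI
  have e6 : (1 - Complex.I) / (1 - 2 * Complex.I) = 1 - (2 + Complex.I)⁻¹ := by
    rw [div_eq_iff n1]
    field_simp
    linear_combination hI
  rw [e4, e5, e6, r1, r5, r6] at d2
  rw [r2]
  rw [r3] at d1
  linarith

end Pool.Agent.N186.VS
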